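import Mathlib
import Pool.Agent.H772R2.NS.Pub
import Pool.Agent.H772R2.NS.PubBridge
import Pool.Agent.H772R2.NS.Build
import Pool.Agent.H772R2.NS.Approx

open MeasureTheory Set Filter Topology H772R2.NS.Pub
open scoped InnerProductSpace ENNReal

namespace Pool.Agent.Results.MP_a38b17_an.AeBalance

/-- The times in `[0,T]` at which the enstrophy `‖∇u‖²` is at most `h²`. -/
def below (T : ℝ) {Ω : Set R3} (u : ℝ → L2 Ω R3) (h : ℝ) : Set ℝ :=
  {s ∈ Icc 0 T | ∃ z, (u s, z) ∈ H1graph Ω ∧ ‖z‖ ≤ h}

end Pool.Agent.Results.MP_a38b17_an.AeBalance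

/-- **Local energy balance at almost every time.** Let `u` be a weak solution of the Navier-Stokes
equations in an open set `Ω` (no energy inequality is assumed). For almost every `t` the kinetic
energy `‖u(·)‖²/2` is differentiable at `t` along the set of times with enstrophy at most `h²`, for
every `h`, with the derivative `P(t) - |Ω| ε(t)` of the energy equality; and for `h > ‖∇u(t)‖` that
set of times has density one at `t`. So the energy equality holds, in the sense of approximate
derivatives, at almost every time. -/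
theorem Pool.Agent.Results.MP_a38b17_an.AeBalance.result
    {Ω : Set R3} (hΩ : IsOpen Ω) {ν T : ℝ} (hν : 0 < ν) (hT : 0 < T)
    {u : ℝ → L2 Ω R3} {G : ℝ → L2 Ω Mat} {f : ℝ → L2 Ω R3} (hu : IsWeakSolution Ω ν T u G f) :
    ∀ᵐ t ∂(volume.restrict (Ioo 0 T)),
      (∀ h : ℝ, HasDerivWithinAt (fun s => ‖u s‖ ^ 2 / 2) (⟪f t, u t⟫_ℝ - ν * ‖G t‖ ^ 2)
        (Pool.Agent.Results.MP_a38b17_an.AeBalance.below T u h) t) ∧
      ∀ h : ℝ, ‖G t‖ < h →
        Tendsto (fun r => volume (Pool.Agent.Results.MP_a38b17_an.AeBalance.below T u h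
          ∩ Metric.closedBall t r) / volume (Metric.closedBall t r)) (𝓝[>] 0) (𝓝 1) := by
  have hu' := toNS hu
  obtain ⟨M, hM⟩ := hu'.bdd
  have S := hu'.toSol hΩ hν.le hT hM
  have hgood : ∀ h : ℝ, H772R2.NS.good (H772R2.NS.graphW (Ω : Set H772R2.NS.E3)) T
      (u : ℝ → H772R2.NS.L2V (Ω : Set H772R2.NS.E3)) h
      = Pool.Agent.Results.MP_a38b17_an.AeBalance.below T u h := by
    intro h
    ext s
    constructor
    · rintro ⟨h1, z, h2, h3⟩; exact ⟨h1, z, mem_pub.mp h3, h2⟩
    · rintro ⟨h1, z, h2, h3⟩; exact ⟨h1, z, h3, mem_pub.mpr h2⟩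
  rw [← H772R2.NS.restrict_Ioc_eq]
  filter_upwards [S.approx_balance] with t ht
  constructor
  · intro h
    have := ht.1 h
    rw [hgood] at this
    exact this
  · intro h hh
    have := ht.2 h hh
    simp only [hgood] at this
    exact this
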