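import Mathlib
import Pool.Agent.H772R2.NS.Pub
import Pool.Agent.H772R2.NS.PubBridge
import Pool.Agent.H772R2.NS.Build
import Pool.Agent.H772R2.NS.Final3

open MeasureTheory Set Filter Topology H772R2.NS.Pub
open scoped InnerProductSpace ENNReal

/-- **Blow-up rates at an energy jump.** There is a universal constant `C` with the following
property. Let `u` be a weak solution of the Navier-Stokes equations in an open set `Ω` (no energy
inequality is assumed), `‖u‖ ≤ M`, let `D` be its energy defect and suppose that the energy jumps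
by at least `δ > 0` at time `t`: `D(a) + δ ≤ D(t)` for `a < t` close to `t`. Then
`(t - a)^{1/4} ‖∇u(a)‖ → ∞` as `a → t⁻` and
`δ⁴ (t - a) ≤ C M² (∫_a^t ‖∇u‖² dτ)⁵` for `a < t` close to `t`. If the energy equality holds on
`[0,t)` and fails at `t` then `D(t) > 0`, so that this applies with `δ = D(t)`. -/
theorem Pool.Agent.Results.MP_a38b17_an.JumpRates.result :
    ∃ C : ℝ, 0 < C ∧ ∀ {Ω : Set R3}, IsOpen Ω → ∀ {ν T : ℝ}, 0 < ν → 0 < T →
      ∀ {u : ℝ → L2 Ω R3} {G : ℝ → L2 Ω Mat} {f : ℝ → L2 Ω R3}, IsWeakSolution Ω ν T u G f →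
      ∀ {M : ℝ}, 0 < M → (∀ t ∈ Icc 0 T, ‖u t‖ ≤ M) → ∀ {t : ℝ}, t ∈ Ioc 0 T →
      (∀ {δ : ℝ}, 0 < δ →
        (∀ᶠ a in 𝓝[<] t, energyDefect ν u G f a + δ ≤ energyDefect ν u G f t) →
        (∀ L : ℝ, ∀ᶠ a in 𝓝[<] t, ∀ z, (u a, z) ∈ H1graph Ω → L ≤ (t - a) ^ (1 / 4 : ℝ) * ‖z‖) ∧
        ∀ᶠ a in 𝓝[<] t, δ ^ 4 * (t - a) ≤ C * M ^ 2 * (∫ τ in a..t, ‖G τ‖ ^ 2) ^ 5) ∧
      ((∀ a ∈ Ico 0 t, energyDefect ν u G f a = 0) → energyDefect ν u G f t ≠ 0 →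
        0 < energyDefect ν u G f t) := by
  refine ⟨16 * ((H772R2.NS.CS : ℝ) ^ 3 + 1) ^ 2, by positivity, ?_⟩
  intro Ω hΩ ν T hν hT u G f hu M hM0 hM t ht
  have hu' := toNS hu
  refine ⟨?_, fun h0 h1 => hu'.defect_pos hΩ hν.le hT ht h0 h1⟩
  intro δ hδ hj
  have h1 := hu'.jump_rates hΩ hν.le hT hM0 hM ht hδ hj
  rw [← H1graph_eq] at h1
  exact h1
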