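import Mathlib
import Pool.Agent.H772R2.NS.Pub
import Pool.Agent.H772R2.NS.PubBridge
import Pool.Agent.H772R2.NS.Build
import Pool.Agent.H772R2.NS.Sard

open MeasureTheory Set Filter Topology H772R2.NS.Pub
open scoped InnerProductSpace ENNReal

namespace Pool.Agent.Results.MP_a38b17_an.KineticAC

theorem ac_congr {f g : ℝ → ℝ} {a b : ℝ} (hf : AbsolutelyContinuousOnInterval f a b)
    (h : EqOn f g (uIcc a b)) : AbsolutelyContinuousOnInterval g a b := by
  rw [absolutelyContinuousOnInterval_iff] at hf ⊢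
  intro ε hε
  obtain ⟨δ, hδ, h1⟩ := hf ε hε
  refine ⟨δ, hδ, fun E hE hE2 => ?_⟩
  have := h1 E hE hE2
  have h2 : ∑ i ∈ Finset.range E.1, dist (g (E.2 i).1) (g (E.2 i).2)
      = ∑ i ∈ Finset.range E.1, dist (f (E.2 i).1) (f (E.2 i).2) := by
    refine Finset.sum_congr rfl fun i hi => ?_
    have h3 := hE.1 i hi
    rw [h h3.1, h h3.2]
  rw [h2]
  exact this

open H772R2.NS in
theorem main {Ω : Set E3} (hΩ : IsOpen Ω) {ν T : ℝ} (hν : 0 < ν) (hT : 0 < T)
    {u : ℝ → L2V Ω} {G : ℝ → L2M Ω} {f : ℝ → L2V Ω} (hu : H772R2.NS.IsWeakSolution Ω ν T u G f)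
    {A B : Set ℝ} (hA : {t ∈ Icc 0 T | ∃ z, (u t, z) ∈ graphW Ω} = A)
    (hB : {t ∈ Icc 0 T | ¬ ∃ z, (u t, z) ∈ graphW Ω} = B) :
    volume (H772R2.NS.energyDefect ν u G f '' A) = 0 ∧
    List.TFAE [
      ∀ t ∈ Icc 0 T, H772R2.NS.energyDefect ν u G f t = 0,
      AbsolutelyContinuousOnInterval (fun t => ‖u t‖ ^ 2 / 2) 0 T,
      ContinuousOn (fun t => ‖u t‖ ^ 2 / 2) (Icc 0 T) ∧
        volume (H772R2.NS.energyDefect ν u G f '' B) = 0] := by
  subst hA hB
  obtain ⟨M, hM⟩ := hu.bdd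
  have S := hu.toSol hΩ hν.le hT hM
  have hDE : ∀ t ∈ Icc 0 T, H772R2.NS.energyDefect ν u G f t = defect ν u G f t :=
    fun t ht => energyDefect_eq hΩ hν.le hT hu ht
  have hI : uIcc 0 T = Icc 0 T := uIcc_of_le hT.le
  have hp : IntervalIntegrable (pow ν u G f) volume 0 T := by
    rw [intervalIntegrable_iff_integrableOn_Ioc_of_le S.T0]
    exact S.pow_int
  have hPac : AbsolutelyContinuousOnInterval (fun x => ‖u 0‖ ^ 2 / 2
      + ∫ τ in (0 : ℝ)..x, pow ν u G f τ) 0 T := by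
    have h1 := hp.absolutelyContinuousOnInterval_intervalIntegral (c := 0)
      (by rw [hI]; exact ⟨le_rfl, S.T0⟩)
    have hc : AbsolutelyContinuousOnInterval (fun _ : ℝ => ‖u 0‖ ^ 2 / 2) 0 T :=
      (contDiffOn_const (𝕜 := ℝ) (n := 1)).absolutelyContinuousOnInterval
    exact hc.add h1
  have himg : ∀ P : ℝ → Prop, H772R2.NS.energyDefect ν u G f '' {t ∈ Icc 0 T | P t}
      = defect ν u G f '' {t ∈ Icc 0 T | P t} :=
    fun P => image_congr fun t ht => hDE t ht.1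
  refine ⟨?_, ?_⟩
  · rw [himg]
    exact S.sard
  · have h12 : (∀ t ∈ Icc 0 T, H772R2.NS.energyDefect ν u G f t = 0) →
        AbsolutelyContinuousOnInterval (fun t => ‖u t‖ ^ 2 / 2) 0 T := by
      intro h0
      refine ac_congr hPac ?_
      intro t ht
      rw [hI] at ht
      have h1 := h0 t ht
      rw [hDE t ht] at h1
      simp only [defect] at h1
      simp only
      linarith
    tfae_have 1 → 2 := h12
    tfae_have 2 → 1 := by
      intro h2 t ht
      rw [hDE t ht]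
      exact S.eq_of_ac h2 t ht
    tfae_have 1 → 3 := by
      intro h1
      refine ⟨?_, ?_⟩
      · have := (h12 h1).continuousOn
        rwa [hI] at this
      · refine measure_mono_null (t := {0}) ?_ (by simp)
        rintro _ ⟨t, ht, rfl⟩
        exact h1 t ht.1
    tfae_have 3 → 1 := by
      rintro ⟨h1, h2⟩ t ht
      rw [hDE t ht]
      rw [himg] at h2
      refine S.eq_of_lusin ?_ h2 t ht
      have h3 := hPac.continuousOn
      rw [hI] at h3
      exact h3.sub h1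
    tfae_finish

end Pool.Agent.Results.MP_a38b17_an.KineticAC

/-- **A Sard theorem for the energy defect.** Let `u` be a weak solution of the Navier-Stokes
equations in an open set `Ω` (no energy inequality is assumed), `D` its energy defect. Then `D`
maps the set of all times `t` with `u(t) ∈ H¹_{0,σ}` onto a set of measure zero, and the following
are equivalent: the energy equality holds on `[0,T]`; the kinetic energy is absolutely continuous;
the kinetic energy is continuous and `D` maps the (null) set of times with `u(t) ∉ H¹_{0,σ}` onto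
a set of measure zero. -/
theorem Pool.Agent.Results.MP_a38b17_an.KineticAC.result
    {Ω : Set R3} (hΩ : IsOpen Ω) {ν T : ℝ} (hν : 0 < ν) (hT : 0 < T)
    {u : ℝ → L2 Ω R3} {G : ℝ → L2 Ω Mat} {f : ℝ → L2 Ω R3} (hu : IsWeakSolution Ω ν T u G f) :
    volume (energyDefect ν u G f '' {t ∈ Icc 0 T | u t ∈ H10sigma Ω}) = 0 ∧
    List.TFAE [
      ∀ t ∈ Icc 0 T, energyDefect ν u G f t = 0,
      AbsolutelyContinuousOnInterval (fun t => ‖u t‖ ^ 2 / 2) 0 T,
      ContinuousOn (fun t => ‖u t‖ ^ 2 / 2) (Icc 0 T) ∧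
        volume (energyDefect ν u G f '' {t ∈ Icc 0 T | u t ∉ H10sigma Ω}) = 0] := by
  have hset : {t ∈ Icc 0 T | ∃ z, ((u t : H772R2.NS.L2V (Ω : Set H772R2.NS.E3)), z)
      ∈ H772R2.NS.graphW (Ω : Set H772R2.NS.E3)} = {t ∈ Icc 0 T | u t ∈ H10sigma Ω} := by
    ext t
    constructor
    · rintro ⟨h1, z, h2⟩; exact ⟨h1, z, mem_pub.mp h2⟩
    · rintro ⟨h1, z, h2⟩; exact ⟨h1, z, mem_pub.mpr h2⟩
  have hset2 : {t ∈ Icc 0 T | ¬ ∃ z, ((u t : H772R2.NS.L2V (Ω : Set H772R2.NS.E3)), z)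
      ∈ H772R2.NS.graphW (Ω : Set H772R2.NS.E3)} = {t ∈ Icc 0 T | u t ∉ H10sigma Ω} := by
    ext t
    constructor
    · rintro ⟨h1, h2⟩; exact ⟨h1, fun ⟨z, hz⟩ => h2 ⟨z, mem_pub.mpr hz⟩⟩
    · rintro ⟨h1, h2⟩; exact ⟨h1, fun ⟨z, hz⟩ => h2 ⟨z, mem_pub.mp hz⟩⟩
  exact Pool.Agent.Results.MP_a38b17_an.KineticAC.main hΩ hν hT (toNS hu) hset hset2
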