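import Mathlib
import Pool.Agent.H772R2.NS.Pub
import Pool.Agent.H772R2.NS.PubBridge
import Pool.Agent.H772R2.NS.Build
import Pool.Agent.H772R2.NS.Final2
import Pool.Agent.H772R2.NS.Cor2
import Pool.Agent.H772R2.NS.Cor3

open MeasureTheory Set Filter Topology H772R2.NS.Pub
open scoped InnerProductSpace ENNReal

/-- **The energy defect is bounded by an enstrophy tail.** Let `u` be a weak solution of the
Navier-Stokes equations in an open set `Ω` (no energy inequality is assumed), `D` its energy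
defect. For `0 ≤ s ≤ t ≤ T`,
`|D(t) - D(s)| ≤ liminf_{h → ∞} h ∫_{(s,t) ∩ {‖∇u‖ > h}} ‖u‖²_{L⁴(Ω)} dτ`.
Consequently the energy equality holds on `[0,T]` in each of the following cases:
* `u` is in the weak Lebesgue space `L^{4,∞}(0,T; L⁴)`;
* `liminf_{h → ∞} h^{1/2} ∫_{(0,T) ∩ {‖∇u‖ > h}} ‖∇u‖² dτ = 0`;
* `∫₀ᵀ ‖∇u‖^{5/2} / log(e + ‖∇u‖) dτ < ∞`. -/
theorem Pool.Agent.Results.MP_a38b17_an.TailBound.result
    {Ω : Set R3} (hΩ : IsOpen Ω) {ν T : ℝ} (hν : 0 < ν) (hT : 0 < T)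
    {u : ℝ → L2 Ω R3} {G : ℝ → L2 Ω Mat} {f : ℝ → L2 Ω R3} (hu : IsWeakSolution Ω ν T u G f) :
    (∀ s t, 0 ≤ s → s ≤ t → t ≤ T →
      ENNReal.ofReal |energyDefect ν u G f t - energyDefect ν u G f s|
        ≤ Filter.liminf (fun h : ℝ => ENNReal.ofReal h *
          ∫⁻ τ in Ioo s t ∩ {τ | h < ‖G τ‖}, (norm4 (u τ)) ^ 2) atTop) ∧
    ((∃ C : ℝ, ∀ l : ℝ, 0 < l →
        volume {τ ∈ Ioo 0 T | ENNReal.ofReal l < norm4 (u τ)} ≤ ENNReal.ofReal (C / l ^ 4)) →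
      ∀ t ∈ Icc 0 T, energyDefect ν u G f t = 0) ∧
    (Filter.liminf (fun h : ℝ => ENNReal.ofReal (Real.sqrt h)
        * ∫⁻ τ in Ioo 0 T ∩ {τ | h < ‖G τ‖}, ‖G τ‖ₑ ^ 2) atTop = 0 →
      ∀ t ∈ Icc 0 T, energyDefect ν u G f t = 0) ∧
    (∫⁻ τ in Ioo 0 T, ENNReal.ofReal
        (‖G τ‖ ^ (5 / 2 : ℝ) / Real.log (Real.exp 1 + ‖G τ‖)) ≠ ⊤ →
      ∀ t ∈ Icc 0 T, energyDefect ν u G f t = 0) := by
  have hu' := toNS hu
  refine ⟨fun s t hs hst ht => hu'.defect_le_tail hΩ hν.le hT hs hst ht, ?_, ?_, ?_⟩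
  · rintro ⟨C, hC⟩
    exact hu'.eq_of_weak_four hΩ hν.le hT hC
  · intro h0
    exact hu'.eq_of_enstrophy_tail hΩ hν.le hT h0
  · intro h0
    exact hu'.eq_of_log hΩ hν.le hT h0
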